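import Pool.Agent.Rook.Final

/-!
MP_420652_co, Q1: the number `f(n)` of super rooks is `n - Θ(√(n log n))`.
-/

namespace Pool.Agent.Results.MP_420652_co.OrderOfF

/-- There are constants `a, b > 0` such that for every `n ≥ 3` admissible colourings of the
`n × n` board exist, `f(n)` is the largest value of `s(c)` over them, and
`a √(n log n) ≤ n - f(n) ≤ b √(n log n)`. -/
theorem result : ∃ a b : ℝ, 0 < a ∧ 0 < b ∧ ∀ n : ℕ, 3 ≤ n →
    IsGreatest (Rook.sVals n) (Rook.f n) ∧
    a * Real.sqrt (n * Real.log n) ≤ (n : ℝ) - Rook.f n ∧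
    (n : ℝ) - Rook.f n ≤ b * Real.sqrt (n * Real.log n) :=
  Rook.f_bounds

end Pool.Agent.Results.MP_420652_co.OrderOfF
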