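import Pool.Agent.Rook.Final

/-!
MP_420652_co, Q2: the number `f_sym(n)` of super rooks is `n - Θ(√(n log n))` for odd `n`.
-/

namespace Pool.Agent.Results.MP_420652_co.OrderOfFSym

/-- There are constants `a, b > 0` such that for every odd `n ≥ 3` symmetric admissible
colourings of the `n × n` board exist, `f_sym(n)` is the largest value of `s(c)` over them, and
`a √(n log n) ≤ n - f_sym(n) ≤ b √(n log n)`. -/
theorem result : ∃ a b : ℝ, 0 < a ∧ 0 < b ∧ ∀ n : ℕ, 3 ≤ n → Odd n →
    IsGreatest (Rook.symVals n) (Rook.fsym n) ∧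
    a * Real.sqrt (n * Real.log n) ≤ (n : ℝ) - Rook.fsym n ∧
    (n : ℝ) - Rook.fsym n ≤ b * Real.sqrt (n * Real.log n) :=
  Rook.fsym_bounds

end Pool.Agent.Results.MP_420652_co.OrderOfFSym
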